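import Pool.Agent.H90.MR.Trace
import Pool.Agent.H90.MR.Weights
import Pool.Agent.H90.MR.Thin
import Pool.Agent.H85.MR.Cov
import Pool.Agent.H85.MR.Box
import Pool.Agent.H40.MR.Sup
import Pool.Agent.H59.MR.Mom

/-!
# The prime coefficients of a function of the Selberg class and almost every rotation

Let `a` be an arbitrary sequence with the Ramanujan bound (axiom 4 of the Selberg class), for instance the coefficients
`a_F(n)` of any member `F` of the Selberg class. For almost every real `α`: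

* the values `|a(p)|^2` and the points `α p mod 1` are jointly independent: the number of the primes `p ≤ x` with
  `t₁ ≤ |a(p)|^2 < t₂` and `α p mod 1 < v` is `v` times the number of the `p ≤ x` with `t₁ ≤ |a(p)|^2 < t₂`, with an error
  at most `√x (log x) ^ (15/2)`, uniformly in `t₁, t₂, v`;
* `∑ |a(p)|^2 / p` over the primes `p ≤ x` with `α p mod 1 < v` is `v S(x) + c(v) + O(x ^ (ε - 1/2))`, uniformly in `v`,
  where `S(x) = ∑_{p ≤ x} |a(p)|^2 / p`; and for every nonincreasing `δ` the same sum over the thin set of the primes with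
  `α p mod 1 < δ(p)` is `∑ δ(p) |a(p)|^2 / p + c + O(x ^ (ε - 1/2))`.

So the assertion of Q1 for `F` is equivalent, for almost every `α` and all `v`, to its form for the primes with
`α p mod 1 < v` (with `v log log x`), and for almost every `θ` to its form for the primes in the Beatty sequence `⌊n / θ⌋`.
-/

set_option autoImplicit false

namespace Pool.Agent.Results.MP_8e9775_nt.ValuesAndRotations

open Finset Filter MeasureTheory
open Pool.Agent.H90.MR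
open Pool.Agent.H90.MR.Trace (arc beatty target count_le tends_count)

/-- The Ramanujan bound (axiom 4 of the Selberg class). -/
def Ramanujan (a : ℕ → ℂ) : Prop := ∀ ε : ℝ, 0 < ε → ∃ C : ℝ, ∀ n : ℕ, 1 ≤ n → ‖a n‖ ≤ C * (n : ℝ) ^ ε

open Classical in
/-- The primes `p ≤ x` in `S`. -/
noncomputable def primesIn (S : Set ℕ) (x : ℕ) : Finset ℕ := (range (x + 1)).filter (fun p => p.Prime ∧ p ∈ S)

open Classical in
/-- The primes `p ≤ x` in `S` with `t₁ ≤ |a(p)|² < t₂`. -/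
noncomputable def valuesIn (a : ℕ → ℂ) (S : Set ℕ) (t₁ t₂ : ℝ) (x : ℕ) : Finset ℕ :=
  (primesIn S x).filter (fun p => t₁ ≤ ‖a p‖ ^ 2 ∧ ‖a p‖ ^ 2 < t₂)

/-- `∑ |a(p)|² / p` over the primes `p ≤ x` in `S`; for `S = Set.univ` this is `S_F(x)`. -/
noncomputable def selbergSum (a : ℕ → ℂ) (S : Set ℕ) (x : ℕ) : ℝ := ∑ p ∈ primesIn S x, ‖a p‖ ^ 2 / p

/-- The assertion of Q1 for the primes in `S`: the sum is `v log log x + O(1)`. For `S = Set.univ` and `v = 1` this is Q1. -/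
def Orthogonality (a : ℕ → ℂ) (S : Set ℕ) (v : ℝ) : Prop :=
  ∃ C : ℝ, ∀ x : ℕ, 3 ≤ x → |selbergSum a S x - v * Real.log (Real.log x)| ≤ C

/-- the value sequence -/
noncomputable def wt (a : ℕ → ℂ) (k : ℕ) : ℝ := ‖a (Nat.nth Nat.Prime k)‖ ^ 2

open Classical in
/-- what the box theorem gives -/
def Indep (a : ℕ → ℂ) (α : ℝ) : Prop := ∃ K₀ : ℕ, ∀ K : ℕ, K₀ ≤ K → ∀ t₁ t₂ v : ℝ, 0 ≤ v → v ≤ 1 →
  ((((range K).filter (fun k => (t₁ ≤ wt a k ∧ wt a k < t₂) ∧ Int.fract ((Nat.nth Nat.Prime k : ℝ) * α) < v)).card : ℝ) -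
    v * ((range K).filter (fun k => t₁ ≤ wt a k ∧ wt a k < t₂)).card) ^ 2 ≤ K * Real.log K ^ 15

open Classical in
/-- what the target theorem gives -/
def IndepT (a : ℕ → ℂ) (δ : ℕ → ℝ) (α : ℝ) : Prop := ∃ K₀ : ℕ, ∀ K : ℕ, K₀ ≤ K → ∀ t₁ t₂ : ℝ,
  ((((range K).filter (fun k => (t₁ ≤ wt a k ∧ wt a k < t₂) ∧ Int.fract ((Nat.nth Nat.Prime k : ℝ) * α) <
      δ (Nat.nth Nat.Prime k))).card : ℝ) -
    ∑ k ∈ (range K).filter (fun k => t₁ ≤ wt a k ∧ wt a k < t₂), δ (Nat.nth Nat.Prime k)) ^ 2 ≤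
    (1 + ∑ k ∈ range K, δ (Nat.nth Nat.Prime k)) * Real.log K ^ 11

lemma indep_of_box (hB : S_BOX) (a : ℕ → ℂ) : ∀ᵐ α : ℝ, Indep a α := by
  filter_upwards [hB (Nat.nth Nat.Prime) (Nat.nth_strictMono Nat.infinite_setOfPred_prime)
    (Nat.prime_nth_prime 0).one_lt.le nth_coprime (wt a) 1] with α hα
  obtain ⟨K₀, h⟩ := hα
  refine ⟨K₀, fun K hK t₁ t₂ v hv0 hv1 => ?_⟩
  have h1 := h K hK (fun _ => t₁) (fun _ => t₂) v hv0 hv1
  simpa using h1

lemma indepT_of_box (hB : S_BOXT) (a : ℕ → ℂ) (δ : ℕ → ℝ) (hδ : ∀ k, 0 ≤ δ k ∧ δ k ≤ 1) (hδa : Antitone δ) :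
    ∀ᵐ α : ℝ, IndepT a δ α := by
  filter_upwards [hB (Nat.nth Nat.Prime) (Nat.nth_strictMono Nat.infinite_setOfPred_prime)
    (Nat.prime_nth_prime 0).one_lt.le nth_coprime (fun k => δ (Nat.nth Nat.Prime k)) (fun k => hδ _)
    (fun a b hab => hδa ((Nat.nth_strictMono Nat.infinite_setOfPred_prime).monotone hab)) (wt a) 1] with α hα
  obtain ⟨K₀, h⟩ := hα
  refine ⟨K₀, fun K hK t₁ t₂ => ?_⟩
  have h1 := h K hK (fun _ => t₁) (fun _ => t₂)
  simpa using h1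

/-- the general argument for weights: `ρ k` is `v` or `δ (p_k)` -/
lemma general (a : ℕ → ℂ) (ha : Ramanujan a) (α : ℝ) {ι : Type*} (D : ι → Prop) (ρ : ι → ℕ → ℝ)
    (hρ : ∀ i, D i → ∀ n, 0 ≤ ρ i n ∧ ρ i n ≤ 1)
    (h : ∃ K₀ : ℕ, ∀ K : ℕ, K₀ ≤ K → ∀ t₁ t₂ : ℝ, ∀ i, D i →
      (∑ k ∈ (range K).filter (fun k => t₁ ≤ wt a k ∧ wt a k < t₂),
        ((if Int.fract ((Nat.nth Nat.Prime k : ℝ) * α) < ρ i (Nat.nth Nat.Prime k) then (1 : ℝ) else 0) -
          ρ i (Nat.nth Nat.Prime k))) ^ 2 ≤ K * Real.log K ^ 15)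
    (ε : ℝ) (hε : 0 < ε) (hε2 : ε < 1 / 2) :
    ∃ C : ℝ, ∀ i, D i → ∃ c : ℝ, ∀ x : ℕ, 1 ≤ x →
      |∑ p ∈ primesIn Set.univ x, ‖a p‖ ^ 2 / p * ((if Int.fract ((p : ℝ) * α) < ρ i p then (1 : ℝ) else 0) - ρ i p) - c| ≤
        C * (x : ℝ) ^ (ε - 1 / 2) := by
  classical
  obtain ⟨C₁, hC₁⟩ := ha (ε / 4) (by linarith)
  set e : ι → ℕ → ℝ := fun i n => (if Int.fract ((n : ℝ) * α) < ρ i n then (1 : ℝ) else 0) - ρ i n with he
  have he1 : ∀ i, D i → ∀ n, |e i n| ≤ 1 := by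
    intro i hi n
    have h1 := hρ i hi n
    simp only [he]
    rw [abs_le]
    split_ifs <;> constructor <;> linarith
  -- the thresholds
  have hG : GG (1 / 2) (fun j : ℝ × ι => D j.2) (fun K j => ∑ k ∈ (range K).filter (fun k => j.1 ≤ wt a k),
      e j.2 (Nat.nth Nat.Prime k)) := by
    obtain ⟨K₀, h⟩ := h
    refine GG.of_sq le_rfl (E := 15) ⟨K₀, fun K hK j hj => ?_⟩ fun K j hj => ?_
    · have h1 := h K hK j.1 (1 + ∑ k ∈ range K, wt a k) j.2 hj
      have h2 : (range K).filter (fun k => j.1 ≤ wt a k ∧ wt a k < 1 + ∑ k ∈ range K, wt a k) =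
          (range K).filter (fun k => j.1 ≤ wt a k) := by
        apply filter_congr
        intro k hk
        have h3 : wt a k ≤ ∑ k ∈ range K, wt a k :=
          single_le_sum (f := wt a) (fun k _ => by unfold wt; positivity) hk
        constructor
        · exact fun h => h.1
        · exact fun h => ⟨h, by linarith⟩
      rw [h2] at h1
      exact h1
    · refine (abs_sum_le_sum_abs _ _).trans ?_
      refine (sum_le_sum fun k _ => he1 j.2 hj _).trans ?_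
      rw [sum_const, nsmul_eq_mul, mul_one]
      exact_mod_cast (card_filter_le _ _).trans (card_range _).le
  obtain ⟨C₂, hC₂⟩ := hG (ε / 2) (by linarith)
  refine ⟨C₁ ^ 2 * |C₂| * (1 + 2 * (1 / 2 - ε)⁻¹), fun i hi => ?_⟩
  set f : ℕ → ℝ := fun n => if n.Prime then ‖a n‖ ^ 2 * e i n else 0 with hf
  have hf0 : f 0 = 0 := by simp [hf, Nat.not_prime_zero]
  have hC0 : 0 ≤ C₁ ^ 2 * |C₂| := by positivity
  have hE : ∀ x : ℕ, 1 ≤ x → |∑ n ∈ range (x + 1), f n| ≤ C₁ ^ 2 * |C₂| * (x : ℝ) ^ (1 - (1 / 2 - ε)) := by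
    intro x hx
    have hx0 : (0 : ℝ) < x := by exact_mod_cast hx
    have h1 : ∑ n ∈ range (x + 1), f n = ∑ k ∈ range (Nat.count Nat.Prime (x + 1)),
        wt a k * e i (Nat.nth Nat.Prime k) := by
      have h2 := sum_nth Nat.Prime (fun _ => True) Nat.infinite_setOfPred_prime x (fun n => ‖a n‖ ^ 2 * e i n)
      simp only [and_true, filter_true] at h2
      rw [hf, ← sum_filter, ← h2]
      rfl
    rw [h1]
    have hKx : Nat.count Nat.Prime (x + 1) ≤ x := count_le Nat.Prime Nat.not_prime_zero x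
    rcases Nat.eq_zero_or_pos (Nat.count Nat.Prime (x + 1)) with h0 | h0
    · rw [h0, range_zero, sum_empty, abs_zero]
      positivity
    · have hM : ∀ k ∈ range (Nat.count Nat.Prime (x + 1)), 0 ≤ wt a k ∧ wt a k ≤ C₁ ^ 2 * (x : ℝ) ^ (ε / 2) := by
        intro k hk
        have h3 : Nat.nth Nat.Prime k < x + 1 := Nat.nth_lt_of_lt_count (mem_range.1 hk)
        have h4 : 1 ≤ Nat.nth Nat.Prime k := (Nat.prime_nth_prime k).one_lt.le
        have h5 := hC₁ _ h4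
        refine ⟨by unfold wt; positivity, ?_⟩
        unfold wt
        have h6 : (Nat.nth Nat.Prime k : ℝ) ≤ x := by exact_mod_cast Nat.lt_succ_iff.1 h3
        calc ‖a (Nat.nth Nat.Prime k)‖ ^ 2 ≤ (C₁ * (Nat.nth Nat.Prime k : ℝ) ^ (ε / 4)) ^ 2 := by gcongr
          _ = C₁ ^ 2 * ((Nat.nth Nat.Prime k : ℝ) ^ (ε / 4)) ^ 2 := by ring
          _ ≤ C₁ ^ 2 * ((x : ℝ) ^ (ε / 4)) ^ 2 := by gcongr
          _ = C₁ ^ 2 * (x : ℝ) ^ (ε / 2) := by
            rw [← Real.rpow_natCast ((x : ℝ) ^ (ε / 4)), ← Real.rpow_mul hx0.le]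
            congr 2
            push_cast
            ring
      have h7 := cake (range (Nat.count Nat.Prime (x + 1))) (wt a) (fun k => e i (Nat.nth Nat.Prime k))
        (M := C₁ ^ 2 * (x : ℝ) ^ (ε / 2)) (B := |C₂| * (x : ℝ) ^ (1 - 1 / 2 + ε / 2)) (by positivity) hM (fun t => by
          refine (hC₂ _ h0 (t, i) hi).trans ?_
          have h8 : (Nat.count Nat.Prime (x + 1) : ℝ) ≤ x := by exact_mod_cast hKx
          calc C₂ * (Nat.count Nat.Prime (x + 1) : ℝ) ^ (1 - 1 / 2 + ε / 2) ≤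
                |C₂| * (Nat.count Nat.Prime (x + 1) : ℝ) ^ (1 - 1 / 2 + ε / 2) :=
                mul_le_mul_of_nonneg_right (le_abs_self _) (by positivity)
            _ ≤ |C₂| * (x : ℝ) ^ (1 - 1 / 2 + ε / 2) :=
                mul_le_mul_of_nonneg_left (Real.rpow_le_rpow (by positivity) h8 (by linarith)) (abs_nonneg _))
      refine h7.trans (le_of_eq ?_)
      have h9 : (x : ℝ) ^ (1 - (1 / 2 - ε)) = (x : ℝ) ^ (ε / 2) * (x : ℝ) ^ (1 - 1 / 2 + ε / 2) := by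
        rw [← Real.rpow_add hx0]
        congr 1
        ring
      rw [h9]
      ring
  obtain ⟨c, hc⟩ := abel (s := 1 / 2 - ε) (by linarith) (by linarith) hC0 f hE hf0
  refine ⟨c, fun x hx => ?_⟩
  have h1 := hc x hx
  have h2 : ∑ n ∈ range (x + 1), f n / n = ∑ p ∈ primesIn Set.univ x, ‖a p‖ ^ 2 / p *
      ((if Int.fract ((p : ℝ) * α) < ρ i p then (1 : ℝ) else 0) - ρ i p) := by
    unfold primesIn
    rw [sum_filter]
    apply sum_congr rfl
    intro n _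
    simp only [hf, he, Set.mem_univ, and_true]
    split_ifs <;> ring
  rw [h2] at h1
  rwa [show ε - 1 / 2 = -(1 / 2 - ε) by ring]

/-- one constant for all `ε` -/
lemma one_const {D : ℝ → Prop} (F : ℝ → ℕ → ℝ)
    (h : ∀ ε : ℝ, 0 < ε → ε < 1 / 2 → ∃ C : ℝ, ∀ v, D v → ∃ c : ℝ, ∀ x : ℕ, 1 ≤ x → |F v x - c| ≤ C * (x : ℝ) ^ (ε - 1 / 2)) :
    ∃ c : ℝ → ℝ, ∀ ε : ℝ, 0 < ε → ε < 1 / 2 → ∃ C : ℝ, ∀ v, D v → ∀ x : ℕ, 1 ≤ x →
      |F v x - c v| ≤ C * (x : ℝ) ^ (ε - 1 / 2) := by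
  classical
  have hlim : ∀ (ε C c v : ℝ), ε < 1 / 2 → (∀ x : ℕ, 1 ≤ x → |F v x - c| ≤ C * (x : ℝ) ^ (ε - 1 / 2)) →
      Tendsto (F v) atTop (nhds c) := by
    intro ε C c v hε h1
    have h2 : Tendsto (fun x : ℕ => C * (x : ℝ) ^ (ε - 1 / 2)) atTop (nhds 0) := by
      have h3 : Tendsto (fun x : ℝ => x ^ (-(1 / 2 - ε))) atTop (nhds 0) := tendsto_rpow_neg_atTop (by linarith)
      have h4 := (h3.comp tendsto_natCast_atTop_atTop).const_mul C
      rw [mul_zero] at h4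
      refine h4.congr fun x => ?_
      simp only [Function.comp_apply]
      rw [show -(1 / 2 - ε) = ε - 1 / 2 by ring]
    rw [tendsto_iff_norm_sub_tendsto_zero]
    refine squeeze_zero' (Eventually.of_forall fun x => norm_nonneg _) ?_ h2
    filter_upwards [eventually_ge_atTop 1] with x hx
    rw [Real.norm_eq_abs]
    exact h1 x hx
  obtain ⟨C₀, h0⟩ := h (1 / 4) (by norm_num) (by norm_num)
  choose! c hc using h0
  refine ⟨c, fun ε hε hε2 => ?_⟩
  obtain ⟨C, h1⟩ := h ε hε hε2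
  refine ⟨C, fun v hv x hx => ?_⟩
  obtain ⟨c', h2⟩ := h1 v hv
  have h3 := hlim _ _ _ v (by norm_num : (1 / 4 : ℝ) < 1 / 2) (hc v hv)
  have h4 := hlim _ _ _ v hε2 h2
  rw [tendsto_nhds_unique h3 h4]
  exact h2 x hx

lemma arc_sum (a : ℕ → ℂ) (α v : ℝ) (x : ℕ) :
    ∑ p ∈ primesIn Set.univ x, ‖a p‖ ^ 2 / p * ((if Int.fract ((p : ℝ) * α) < v then (1 : ℝ) else 0) - v) =
      selbergSum a (arc α v) x - v * selbergSum a Set.univ x := by
  classical
  unfold selbergSum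
  have h1 : primesIn (arc α v) x = (primesIn Set.univ x).filter (fun p : ℕ => Int.fract ((p : ℝ) * α) < v) := by
    unfold primesIn arc
    ext p
    simp only [mem_filter, Set.mem_ofPred_eq, Set.mem_univ]
    tauto
  rw [h1, sum_filter, mul_sum, ← sum_sub_distrib]
  apply sum_congr rfl
  intro p _
  split_ifs <;> ring

lemma target_sum (a : ℕ → ℂ) (α : ℝ) (δ : ℕ → ℝ) (x : ℕ) :
    ∑ p ∈ primesIn Set.univ x, ‖a p‖ ^ 2 / p * ((if Int.fract ((p : ℝ) * α) < δ p then (1 : ℝ) else 0) - δ p) =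
      selbergSum a (target α δ) x - ∑ p ∈ primesIn Set.univ x, δ p * (‖a p‖ ^ 2 / p) := by
  classical
  unfold selbergSum
  have h1 : primesIn (target α δ) x = (primesIn Set.univ x).filter (fun p : ℕ => Int.fract ((p : ℝ) * α) < δ p) := by
    unfold primesIn target
    ext p
    simp only [mem_filter, Set.mem_ofPred_eq, Set.mem_univ]
    tauto
  rw [h1, sum_filter, ← sum_sub_distrib]
  apply sum_congr rfl
  intro p _
  split_ifs <;> ring

/-- the weighted sums, all `v` -/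
lemma sums (a : ℕ → ℂ) (ha : Ramanujan a) {α : ℝ} (h : Indep a α) : ∃ c : ℝ → ℝ, ∀ ε : ℝ, 0 < ε → ε < 1 / 2 → ∃ C : ℝ,
    ∀ v : ℝ, (0 ≤ v ∧ v ≤ 1) → ∀ x : ℕ, 1 ≤ x →
      |selbergSum a (arc α v) x - v * selbergSum a Set.univ x - c v| ≤ C * (x : ℝ) ^ (ε - 1 / 2) := by
  classical
  refine one_const (fun v x => selbergSum a (arc α v) x - v * selbergSum a Set.univ x) fun ε hε hε2 => ?_
  obtain ⟨C, hC⟩ := general a ha α (fun v : ℝ => 0 ≤ v ∧ v ≤ 1) (fun v _ => v) (fun v hv _ => hv) (by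
    obtain ⟨K₀, h⟩ := h
    refine ⟨K₀, fun K hK t₁ t₂ v hv => ?_⟩
    have h1 := h K hK t₁ t₂ v hv.1 hv.2
    have h5 := ind_sum ((range K).filter (fun k => t₁ ≤ wt a k ∧ wt a k < t₂))
      (fun k => Int.fract ((Nat.nth Nat.Prime k : ℝ) * α) < v) v
    rw [filter_filter] at h5
    rw [← h5]
    exact h1) ε hε hε2
  refine ⟨C, fun v hv => ?_⟩
  obtain ⟨c, hc⟩ := hC v hv
  refine ⟨c, fun x hx => ?_⟩
  have h1 := hc x hx
  rw [arc_sum] at h1
  exact h1

/-- the weighted sums, thin sets -/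
lemma sumsT (a : ℕ → ℂ) (ha : Ramanujan a) (δ : ℕ → ℝ) (hδ : ∀ k, 0 ≤ δ k ∧ δ k ≤ 1) {α : ℝ} (h : IndepT a δ α) :
    ∃ c : ℝ, ∀ ε : ℝ, 0 < ε → ε < 1 / 2 → ∃ C : ℝ, ∀ x : ℕ, 1 ≤ x →
      |selbergSum a (target α δ) x - ∑ p ∈ primesIn Set.univ x, δ p * (‖a p‖ ^ 2 / p) - c| ≤
        C * (x : ℝ) ^ (ε - 1 / 2) := by
  classical
  have key : ∃ c : ℝ → ℝ, ∀ ε : ℝ, 0 < ε → ε < 1 / 2 → ∃ C : ℝ, ∀ v : ℝ, (fun _ : ℝ => True) v → ∀ x : ℕ, 1 ≤ x →
      |selbergSum a (target α δ) x - ∑ p ∈ primesIn Set.univ x, δ p * (‖a p‖ ^ 2 / p) - c v| ≤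
        C * (x : ℝ) ^ (ε - 1 / 2) := by
    refine one_const (D := fun _ => True) (fun _ x => selbergSum a (target α δ) x -
      ∑ p ∈ primesIn Set.univ x, δ p * (‖a p‖ ^ 2 / p)) fun ε hε hε2 => ?_
    obtain ⟨C, hC⟩ := general a ha α (fun _ : ℝ => True) (fun _ => δ) (fun _ _ => hδ) (by
      obtain ⟨K₀, h⟩ := h
      have hl : Tendsto (fun K : ℕ => Real.log K) atTop atTop := Real.tendsto_log_atTop.comp tendsto_natCast_atTop_atTop
      obtain ⟨K₁, hK₁⟩ := eventually_atTop.1 (hl.eventually_ge_atTop 2)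
      refine ⟨max (max K₀ K₁) 1, fun K hK t₁ t₂ v _ => ?_⟩
      have hK0 : K₀ ≤ K := (le_max_left _ _).trans ((le_max_left _ _).trans hK)
      have hK1 := hK₁ K ((le_max_right _ _).trans ((le_max_left _ _).trans hK))
      have hK2 : (1 : ℝ) ≤ K := by exact_mod_cast (le_max_right _ _).trans hK
      have h1 := h K hK0 t₁ t₂
      have h2 : ∑ k ∈ (range K).filter (fun k => t₁ ≤ wt a k ∧ wt a k < t₂),
          ((if Int.fract ((Nat.nth Nat.Prime k : ℝ) * α) < δ (Nat.nth Nat.Prime k) then (1 : ℝ) else 0) -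
            δ (Nat.nth Nat.Prime k)) =
          ((((range K).filter (fun k => (t₁ ≤ wt a k ∧ wt a k < t₂) ∧ Int.fract ((Nat.nth Nat.Prime k : ℝ) * α) <
            δ (Nat.nth Nat.Prime k))).card : ℝ) -
          ∑ k ∈ (range K).filter (fun k => t₁ ≤ wt a k ∧ wt a k < t₂), δ (Nat.nth Nat.Prime k)) := by
        have h5 : (range K).filter (fun k => (t₁ ≤ wt a k ∧ wt a k < t₂) ∧
            Int.fract ((Nat.nth Nat.Prime k : ℝ) * α) < δ (Nat.nth Nat.Prime k)) =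
            ((range K).filter (fun k => t₁ ≤ wt a k ∧ wt a k < t₂)).filter
              (fun k => Int.fract ((Nat.nth Nat.Prime k : ℝ) * α) < δ (Nat.nth Nat.Prime k)) :=
          (filter_filter _ _ _).symm
        rw [h5, card_filter, sum_sub_distrib]
        push_cast
        rfl
      rw [h2]
      refine h1.trans ?_
      have h3 : ∑ k ∈ range K, δ (Nat.nth Nat.Prime k) ≤ K := by
        refine (sum_le_sum fun k _ => (hδ (Nat.nth Nat.Prime k)).2).trans ?_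
        simp
      have hl0 : 0 ≤ Real.log K := by linarith
      calc (1 + ∑ k ∈ range K, δ (Nat.nth Nat.Prime k)) * Real.log K ^ 11 ≤ (K + K) * Real.log K ^ 11 := by
            gcongr
        _ = K * (2 * Real.log K ^ 11) := by ring
        _ ≤ K * (Real.log K ^ 4 * Real.log K ^ 11) := by
            gcongr
            have : (2 : ℝ) ^ 4 ≤ Real.log K ^ 4 := pow_le_pow_left₀ (by norm_num) hK1 4
            linarith
        _ = K * Real.log K ^ 15 := by ring) ε hε hε2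
    refine ⟨C, fun v hv => ?_⟩
    obtain ⟨c, hc⟩ := hC v hv
    refine ⟨c, fun x hx => ?_⟩
    have h1 := hc x hx
    rw [target_sum] at h1
    exact h1
  obtain ⟨c, hc⟩ := key
  refine ⟨c 0, fun ε hε hε2 => ?_⟩
  obtain ⟨C, hC⟩ := hc ε hε hε2
  exact ⟨C, fun x hx => hC 0 trivial x hx⟩

lemma orth_iff (a : ℕ → ℂ) {S : Set ℕ} {v c C : ℝ} (hv : 0 < v)
    (h : ∀ x : ℕ, 1 ≤ x → |selbergSum a S x - v * selbergSum a Set.univ x - c| ≤ C) :
    Orthogonality a Set.univ 1 ↔ Orthogonality a S v := by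
  unfold Orthogonality
  constructor
  · rintro ⟨B, hB⟩
    refine ⟨C + |c| + v * B, fun x hx => ?_⟩
    have h1 := h x (by omega)
    have h2 := hB x hx
    rw [one_mul] at h2
    have e : selbergSum a S x - v * Real.log (Real.log x) = (selbergSum a S x - v * selbergSum a Set.univ x - c) + c +
        v * (selbergSum a Set.univ x - Real.log (Real.log x)) := by ring
    rw [e]
    refine (abs_add_le _ _).trans (add_le_add ((abs_add_le _ _).trans (add_le_add h1 le_rfl)) ?_)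
    rw [abs_mul, abs_of_pos hv]
    exact mul_le_mul_of_nonneg_left h2 hv.le
  · rintro ⟨B, hB⟩
    refine ⟨v⁻¹ * (B + C + |c|), fun x hx => ?_⟩
    have h1 := h x (by omega)
    have h2 := hB x hx
    have e : selbergSum a Set.univ x - 1 * Real.log (Real.log x) = v⁻¹ * ((selbergSum a S x - v * Real.log (Real.log x)) +
        (-(selbergSum a S x - v * selbergSum a Set.univ x - c)) + (-c)) := by
      field_simp
      ring
    rw [e, abs_mul, abs_of_pos (inv_pos.2 hv)]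
    apply mul_le_mul_of_nonneg_left _ (inv_pos.2 hv).le
    refine (abs_add_le _ _).trans (add_le_add ((abs_add_le _ _).trans (add_le_add h2 ?_)) ?_)
    · rw [abs_neg]
      exact h1
    · rw [abs_neg]

lemma rpow_le_one' {x : ℕ} (hx : 1 ≤ x) : (x : ℝ) ^ ((1 / 4 : ℝ) - 1 / 2) ≤ 1 :=
  Real.rpow_le_one_of_one_le_of_nonpos (by exact_mod_cast hx) (by norm_num)

/-- **The values of the coefficients at the primes and almost every rotation.** -/
theorem result (a : ℕ → ℂ) (ha : Ramanujan a) :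
    (∀ᵐ α : ℝ, ∃ x₀ : ℕ, ∀ x : ℕ, x₀ ≤ x → ∀ t₁ t₂ v : ℝ, 0 ≤ v → v ≤ 1 →
      (((valuesIn a (arc α v) t₁ t₂ x).card : ℝ) - v * (valuesIn a Set.univ t₁ t₂ x).card) ^ 2 ≤ x * Real.log x ^ 15) ∧
    (∀ᵐ α : ℝ, ∃ c : ℝ → ℝ, ∀ ε : ℝ, 0 < ε → ε < 1 / 2 → ∃ C : ℝ, ∀ v : ℝ, (0 ≤ v ∧ v ≤ 1) → ∀ x : ℕ, 1 ≤ x →
      |selbergSum a (arc α v) x - v * selbergSum a Set.univ x - c v| ≤ C * (x : ℝ) ^ (ε - 1 / 2)) ∧
    (∀ δ : ℕ → ℝ, (∀ k, 0 ≤ δ k ∧ δ k ≤ 1) → Antitone δ → ∀ᵐ α : ℝ,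
      (∃ x₀ : ℕ, ∀ x : ℕ, x₀ ≤ x → ∀ t₁ t₂ : ℝ,
        (((valuesIn a (target α δ) t₁ t₂ x).card : ℝ) - ∑ p ∈ valuesIn a Set.univ t₁ t₂ x, δ p) ^ 2 ≤
          (1 + ∑ p ∈ primesIn Set.univ x, δ p) * Real.log x ^ 11) ∧
      (∃ c : ℝ, ∀ ε : ℝ, 0 < ε → ε < 1 / 2 → ∃ C : ℝ, ∀ x : ℕ, 1 ≤ x →
        |selbergSum a (target α δ) x - ∑ p ∈ primesIn Set.univ x, δ p * (‖a p‖ ^ 2 / p) - c| ≤
          C * (x : ℝ) ^ (ε - 1 / 2))) ∧
    (∀ᵐ α : ℝ, ∀ v : ℝ, 0 < v → v ≤ 1 → (Orthogonality a Set.univ 1 ↔ Orthogonality a (arc α v) v)) ∧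
    (∀ᵐ θ : ℝ, 0 < θ → θ < 1 → (Orthogonality a Set.univ 1 ↔ Orthogonality a (beatty θ) θ)) := by
  classical
  have hMom := Pool.Agent.H59.MR.mom Pool.Agent.H85.MR.cov Pool.Agent.H85.MR.var
  have hE := Pool.Agent.H59.MR.exp hMom
  have hM : S_MET := met Pool.Agent.H40.MR.dy Pool.Agent.H40.MR.sup hE
  have hT : S_THIN := thin Pool.Agent.H40.MR.sup hE
  have hA := indep_of_box (Pool.Agent.H85.MR.box hM) a
  have hS : ∀ᵐ α : ℝ, ∃ c : ℝ → ℝ, ∀ ε : ℝ, 0 < ε → ε < 1 / 2 → ∃ C : ℝ, ∀ v : ℝ, (0 ≤ v ∧ v ≤ 1) → ∀ x : ℕ, 1 ≤ x →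
      |selbergSum a (arc α v) x - v * selbergSum a Set.univ x - c v| ≤ C * (x : ℝ) ^ (ε - 1 / 2) := by
    filter_upwards [hA] with α hα
    exact sums a ha hα
  have hiff : ∀ α : ℝ, (∃ c : ℝ → ℝ, ∀ ε : ℝ, 0 < ε → ε < 1 / 2 → ∃ C : ℝ, ∀ v : ℝ, (0 ≤ v ∧ v ≤ 1) → ∀ x : ℕ, 1 ≤ x →
      |selbergSum a (arc α v) x - v * selbergSum a Set.univ x - c v| ≤ C * (x : ℝ) ^ (ε - 1 / 2)) →
      ∀ v : ℝ, 0 < v → v ≤ 1 → (Orthogonality a Set.univ 1 ↔ Orthogonality a (arc α v) v) := by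
    rintro α ⟨c, hc⟩ v hv0 hv1
    obtain ⟨C, hC⟩ := hc (1 / 4) (by norm_num) (by norm_num)
    refine orth_iff a (c := c v) (C := |C|) hv0 fun x hx => (hC v ⟨hv0.le, hv1⟩ x hx).trans ?_
    calc C * (x : ℝ) ^ ((1 / 4 : ℝ) - 1 / 2) ≤ |C| * (x : ℝ) ^ ((1 / 4 : ℝ) - 1 / 2) :=
          mul_le_mul_of_nonneg_right (le_abs_self _) (by positivity)
      _ ≤ |C| * 1 := mul_le_mul_of_nonneg_left (rpow_le_one' hx) (abs_nonneg _)
      _ = |C| := mul_one _
  refine ⟨?_, hS, ?_, ?_, ?_⟩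
  · filter_upwards [hA] with α hα
    obtain ⟨K₀, hK₀⟩ := hα
    have h2 := (tends_count Nat.Prime Nat.infinite_setOfPred_prime).eventually_ge_atTop (max K₀ 1)
    obtain ⟨x₀, hx₀⟩ := eventually_atTop.1 h2
    refine ⟨x₀, fun x hx t₁ t₂ v hv0 hv1 => ?_⟩
    have h3 := hx₀ x hx
    have h4 := hK₀ _ ((le_max_left _ _).trans h3) t₁ t₂ v hv0 hv1
    have hKx : Nat.count Nat.Prime (x + 1) ≤ x := count_le Nat.Prime Nat.not_prime_zero x
    have hK1 : 1 ≤ Nat.count Nat.Prime (x + 1) := (le_max_right _ _).trans h3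
    have e1 : (valuesIn a (arc α v) t₁ t₂ x).card = ((range (Nat.count Nat.Prime (x + 1))).filter (fun k =>
        (t₁ ≤ wt a k ∧ wt a k < t₂) ∧ Int.fract ((Nat.nth Nat.Prime k : ℝ) * α) < v)).card := by
      have h5 := card_nth Nat.Prime (fun p => (t₁ ≤ ‖a p‖ ^ 2 ∧ ‖a p‖ ^ 2 < t₂) ∧ Int.fract ((p : ℝ) * α) < v)
        Nat.infinite_setOfPred_prime x
      unfold wt
      rw [h5]
      unfold valuesIn primesIn arc
      congr 1
      ext p
      simp only [mem_filter, Set.mem_ofPred_eq]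
      tauto
    have e2 : (valuesIn a Set.univ t₁ t₂ x).card = ((range (Nat.count Nat.Prime (x + 1))).filter (fun k =>
        (t₁ ≤ wt a k ∧ wt a k < t₂))).card := by
      have h5 := card_nth Nat.Prime (fun p => (t₁ ≤ ‖a p‖ ^ 2 ∧ ‖a p‖ ^ 2 < t₂))
        Nat.infinite_setOfPred_prime x
      unfold wt
      rw [h5]
      unfold valuesIn primesIn
      congr 1
      ext p
      simp only [mem_filter, Set.mem_univ]
      tauto
    rw [e1, e2]
    refine h4.trans ?_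
    have hK1' : (1 : ℝ) ≤ Nat.count Nat.Prime (x + 1) := by exact_mod_cast hK1
    have hKx' : (Nat.count Nat.Prime (x + 1) : ℝ) ≤ x := by exact_mod_cast hKx
    have h6 : Real.log (Nat.count Nat.Prime (x + 1)) ≤ Real.log x := Real.log_le_log (by linarith) hKx'
    have h7 : 0 ≤ Real.log (Nat.count Nat.Prime (x + 1)) := Real.log_nonneg hK1'
    exact mul_le_mul hKx' (pow_le_pow_left₀ h7 h6 _) (by positivity) (by positivity)
  · intro δ hδ hδa
    filter_upwards [indepT_of_box (Pool.Agent.H85.MR.boxt hT) a δ hδ hδa] with α hα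
    refine ⟨?_, sumsT a ha δ hδ hα⟩
    obtain ⟨K₀, hK₀⟩ := hα
    have h2 := (tends_count Nat.Prime Nat.infinite_setOfPred_prime).eventually_ge_atTop (max K₀ 1)
    obtain ⟨x₀, hx₀⟩ := eventually_atTop.1 h2
    refine ⟨x₀, fun x hx t₁ t₂ => ?_⟩
    have h3 := hx₀ x hx
    have h4 := hK₀ _ ((le_max_left _ _).trans h3) t₁ t₂
    have hKx : Nat.count Nat.Prime (x + 1) ≤ x := count_le Nat.Prime Nat.not_prime_zero x
    have hK1 : 1 ≤ Nat.count Nat.Prime (x + 1) := (le_max_right _ _).trans h3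
    have e1 : (valuesIn a (target α δ) t₁ t₂ x).card = ((range (Nat.count Nat.Prime (x + 1))).filter (fun k =>
        (t₁ ≤ wt a k ∧ wt a k < t₂) ∧ Int.fract ((Nat.nth Nat.Prime k : ℝ) * α) < δ (Nat.nth Nat.Prime k))).card := by
      have h5 := card_nth Nat.Prime (fun p => (t₁ ≤ ‖a p‖ ^ 2 ∧ ‖a p‖ ^ 2 < t₂) ∧ Int.fract ((p : ℝ) * α) < δ p)
        Nat.infinite_setOfPred_prime x
      unfold wt
      rw [h5]
      unfold valuesIn primesIn target
      congr 1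
      ext p
      simp only [mem_filter, Set.mem_ofPred_eq]
      tauto
    have e2 : ∑ p ∈ valuesIn a Set.univ t₁ t₂ x, δ p = ∑ k ∈ (range (Nat.count Nat.Prime (x + 1))).filter (fun k =>
        (t₁ ≤ wt a k ∧ wt a k < t₂)), δ (Nat.nth Nat.Prime k) := by
      have h5 := sum_nth Nat.Prime (fun p => (t₁ ≤ ‖a p‖ ^ 2 ∧ ‖a p‖ ^ 2 < t₂))
        Nat.infinite_setOfPred_prime x δ
      unfold wt
      rw [h5]
      unfold valuesIn primesIn
      apply sum_congr _ fun _ _ => rfl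
      ext p
      simp only [mem_filter, Set.mem_univ]
      tauto
    have e3 : ∑ p ∈ primesIn Set.univ x, δ p = ∑ k ∈ range (Nat.count Nat.Prime (x + 1)), δ (Nat.nth Nat.Prime k) := by
      have h5 := sum_nth Nat.Prime (fun _ => True) Nat.infinite_setOfPred_prime x δ
      simp only [and_true, filter_true] at h5
      rw [h5]
      unfold primesIn
      apply sum_congr _ fun _ _ => rfl
      ext p
      simp only [mem_filter, Set.mem_univ, and_true]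
    rw [e1, e2, e3]
    refine h4.trans ?_
    have hK1' : (1 : ℝ) ≤ Nat.count Nat.Prime (x + 1) := by exact_mod_cast hK1
    have hKx' : (Nat.count Nat.Prime (x + 1) : ℝ) ≤ x := by exact_mod_cast hKx
    have h6 : Real.log (Nat.count Nat.Prime (x + 1)) ≤ Real.log x := Real.log_le_log (by linarith) hKx'
    have h7 : 0 ≤ Real.log (Nat.count Nat.Prime (x + 1)) := Real.log_nonneg hK1'
    have h8 : 0 ≤ ∑ k ∈ range (Nat.count Nat.Prime (x + 1)), δ (Nat.nth Nat.Prime k) := sum_nonneg fun k _ => (hδ _).1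
    exact mul_le_mul_of_nonneg_left (pow_le_pow_left₀ h7 h6 _) (by linarith)
  · filter_upwards [hS] with α hα
    exact hiff α hα
  · filter_upwards [ae_neg hS] with θ hθ h0 h1
    have hset : beatty θ = arc (-θ) θ := by
      ext p
      exact beatty_iff h0 h1 p
    rw [hset]
    exact hiff (-θ) hθ θ h0 h1.le

end Pool.Agent.Results.MP_8e9775_nt.ValuesAndRotations
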